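import Pool.Agent.Helper27.BE.Defs

set_option autoImplicit false

namespace Pool.Agent.Helper27.BE

open Finset

theorem card_compl_Dset {ε : ℝ} (hε : 0 < ε) (hε2 : ε ≤ 1 / 2) {κ : ℕ} (hκ : 2 / ε ≤ κ)
    (hκ5 : 4 / ε ≤ (κ : ℝ) ^ 5) {n C : ℕ} {d : ℕ → ℕ} (hd : ∑ i ∈ Icc 1 C, d i ≤ n)
    (hpos : ∀ i, 1 ≤ i → i ≤ C → 1 ≤ d i) (hzero : ∀ i, C < i → d i = 0)
    (hmass : (∑ i ∈ (Icc 1 C).filter (fun i => κ < d i ∧ d i ≤ κ ^ 5), (d i : ℝ)) ≤
      ε ^ 2 / 4 * n) : ((Icc 1 C \ Dset ε κ d C).card : ℝ) ≤ ε * n := by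
  classical
  set Λ := (Icc 1 C).filter (fun i => κ ^ 5 < d i) with hΛ
  set Λ' := (Icc 1 C).filter (fun i => κ ^ 5 < d (i + 1)) with hΛ'
  set W := (Icc 1 C).filter (fun i => κ < d i ∧ d i ≤ κ ^ 5) with hW
  set Bd := (Icc 1 C).filter (fun b => ¬ Good ε κ d b) with hBd
  have hsub : Icc 1 C \ Dset ε κ d C ⊆ (Λ ∪ Λ') ∪ Bd := by
    intro i hi
    rw [mem_sdiff, Dset, mem_filter, not_and] at hi
    obtain ⟨hi1, hi2⟩ := hi
    have hi3 := hi2 hi1
    rw [mem_union, mem_union]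
    by_contra hcon
    push Not at hcon
    obtain ⟨⟨h1, h2⟩, h3⟩ := hcon
    rw [hΛ, mem_filter, not_and, not_lt] at h1
    rw [hΛ', mem_filter, not_and, not_lt] at h2
    rw [hBd, mem_filter, not_and, not_not] at h3
    apply hi3
    refine ⟨i, (mem_Icc.mp hi1).1, le_rfl, h3 hi1, ?_⟩
    intro j hj1 hj2
    rcases Nat.lt_or_ge i j with h | h
    · have : j = i + 1 := by omega
      rw [this]; exact h2 hi1
    · have : j = i := by omega
      rw [this]; exact h1 hi1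
  -- large levels
  have hκpos : 0 < (κ : ℝ) := lt_of_lt_of_le (by positivity) hκ
  have hlarge : (Λ.card : ℝ) * (κ : ℝ) ^ 5 ≤ n := by
    have h1 : Λ.card * κ ^ 5 ≤ n := by
      calc Λ.card * κ ^ 5 = ∑ i ∈ Λ, κ ^ 5 := by simp
        _ ≤ ∑ i ∈ Λ, d i := sum_le_sum fun i hi => (mem_filter.mp hi).2.le
        _ ≤ ∑ i ∈ Icc 1 C, d i := sum_le_sum_of_subset (filter_subset _ _)
        _ ≤ n := hd
    exact_mod_cast h1
  have hΛ'le : Λ'.card ≤ Λ.card := by
    refine card_le_card_of_injOn (fun i => i + 1) ?_ (fun a _ b _ h => by simpa using h)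
    intro i hi
    rw [mem_coe, mem_filter] at hi
    have h1 : i + 1 ≤ C := by
      by_contra h
      have := hzero (i + 1) (by omega)
      omega
    rw [mem_coe, hΛ, mem_filter, mem_Icc]
    exact ⟨⟨Nat.le_add_left 1 i, h1⟩, hi.2⟩
  have hn0 : (0 : ℝ) ≤ n := by positivity
  have hΛr : (Λ.card : ℝ) ≤ ε / 4 * n := by
    have h1 : (Λ.card : ℝ) * (4 / ε) ≤ n :=
      le_trans (mul_le_mul_of_nonneg_left hκ5 (by positivity)) hlarge
    rw [mul_div_assoc', div_le_iff₀ hε] at h1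
    linarith
  -- bad levels
  have hbad : (Bd.card : ℝ) ≤ ε / 2 * n := by
    have hmap : Bd ⊆ W.biUnion (fun i => (range (⌊(d i : ℝ) / ε⌋₊ + 1)).image (fun m => i - m)) := by
      intro b hb
      rw [hBd, mem_filter, mem_Icc, Good] at hb
      obtain ⟨⟨hb1, hbC⟩, hb2⟩ := hb
      push Not at hb2
      obtain ⟨m, hm1, hm2⟩ := hb2
      rw [max_lt_iff] at hm2
      have h1 : κ < d (b + m) := by exact_mod_cast hm2.1
      have h2 : b + m ≤ C := by
        by_contra h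
        have := hzero (b + m) (by omega)
        omega
      rw [mem_biUnion]
      refine ⟨b + m, ?_, ?_⟩
      · rw [hW, mem_filter, mem_Icc]
        exact ⟨⟨by omega, h2⟩, h1, hm1 _ (by omega) le_rfl⟩
      · rw [mem_image]
        refine ⟨m, ?_, by omega⟩
        rw [mem_range, Nat.lt_succ_iff]
        apply Nat.le_floor
        rw [le_div_iff₀ hε]
        linarith [hm2.2]
    have h1 : (Bd.card : ℝ) ≤ ∑ i ∈ W, (2 * (d i : ℝ) / ε) := by
      calc (Bd.card : ℝ) ≤ ((W.biUnion (fun i =>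
            (range (⌊(d i : ℝ) / ε⌋₊ + 1)).image (fun m => i - m))).card : ℝ) := by
            exact_mod_cast card_le_card hmap
        _ ≤ ((∑ i ∈ W, ((range (⌊(d i : ℝ) / ε⌋₊ + 1)).image (fun m => i - m)).card : ℕ) : ℝ) := by
            exact_mod_cast card_biUnion_le
        _ ≤ ((∑ i ∈ W, (⌊(d i : ℝ) / ε⌋₊ + 1) : ℕ) : ℝ) := by
            have : ∑ i ∈ W, ((range (⌊(d i : ℝ) / ε⌋₊ + 1)).image (fun m => i - m)).card ≤
                ∑ i ∈ W, (⌊(d i : ℝ) / ε⌋₊ + 1) :=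
              sum_le_sum fun i _ => card_image_le.trans (by rw [card_range])
            exact_mod_cast this
        _ ≤ ∑ i ∈ W, (2 * (d i : ℝ) / ε) := by
            push_cast
            refine sum_le_sum fun i hi => ?_
            rw [hW, mem_filter] at hi
            have h2 : (1 : ℝ) ≤ d i := by
              exact_mod_cast hpos i (mem_Icc.mp hi.1).1 (mem_Icc.mp hi.1).2
            have h3 : (⌊(d i : ℝ) / ε⌋₊ : ℝ) ≤ (d i : ℝ) / ε := Nat.floor_le (by positivity)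
            have h4 : 1 ≤ (d i : ℝ) / ε := by
              rw [le_div_iff₀ hε]; linarith
            have h5 : 2 * (d i : ℝ) / ε = (d i : ℝ) / ε + (d i : ℝ) / ε := by ring
            rw [h5]
            linarith
    have h2 : ∑ i ∈ W, (2 * (d i : ℝ) / ε) = 2 / ε * ∑ i ∈ W, (d i : ℝ) := by
      rw [mul_sum]; exact sum_congr rfl fun i _ => by ring
    rw [h2] at h1
    refine h1.trans ?_
    calc 2 / ε * ∑ i ∈ W, (d i : ℝ) ≤ 2 / ε * (ε ^ 2 / 4 * n) :=
          mul_le_mul_of_nonneg_left hmass (by positivity)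
      _ = ε / 2 * n := by field_simp; ring
  have hcard : ((Icc 1 C \ Dset ε κ d C).card : ℝ) ≤ Λ.card + Λ'.card + Bd.card := by
    have h1 := card_le_card hsub
    have h2 := card_union_le (Λ ∪ Λ') Bd
    have h3 := card_union_le Λ Λ'
    have h4 : (Icc 1 C \ Dset ε κ d C).card ≤ Λ.card + Λ'.card + Bd.card := by omega
    exact_mod_cast h4
  have hΛ'r : (Λ'.card : ℝ) ≤ Λ.card := by exact_mod_cast hΛ'le
  linarith

end Pool.Agent.Helper27.BE
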