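import Pool.Agent.Helper27.BE.Defs

set_option autoImplicit false

namespace Pool.Agent.Helper27.BE

open Finset

section
variable {G : Type} [Group G] (Λ : GrData G)

/-- `q i` as a homomorphism -/
def qHom (i : ℕ) : gam G i →* Multiplicative (Λ.V i) :=
  MonoidHom.mk' (fun x => Multiplicative.ofAdd (Λ.q i x)) fun x y => by
    rw [Λ.q_mul]; rfl

theorem qHom_surj (i : ℕ) : Function.Surjective (qHom Λ i) := fun v => by
  obtain ⟨x, hx⟩ := Λ.q_surj i v.toAdd
  exact ⟨x, by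
    change Multiplicative.ofAdd (Λ.q i x) = v
    rw [hx]; rfl⟩

theorem qHom_ker {i : ℕ} (hi : 1 ≤ i) : (qHom Λ i).ker = (gam G (i + 1)).subgroupOf (gam G i) := by
  ext x
  rw [MonoidHom.mem_ker, Subgroup.mem_subgroupOf, ← Λ.q_zero i x hi]
  rfl

end

theorem card_V {p n : ℕ} (hp : p.Prime) (G : Type) [Group G] (hG : Nat.card G = p ^ n)
    (Λ : GrData G) : (∀ i, Finite (Λ.V i)) ∧
      ∀ i, 1 ≤ i → Nat.card (Λ.V i) = (gam G (i + 1)).relIndex (gam G i) := by
  have hfin : Finite G := Nat.finite_of_card_ne_zero (by rw [hG]; exact pow_ne_zero _ hp.ne_zero)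
  refine ⟨fun i => Finite.of_surjective _ (Λ.q_surj i), fun i hi => ?_⟩
  rw [Subgroup.relIndex, ← qHom_ker Λ hi, Subgroup.index_ker, MonoidHom.range_eq_top.mpr
    (qHom_surj Λ i), Subgroup.card_top]
  rfl

theorem kill_subgroup {p n : ℕ} (hp : p.Prime) (G : Type) [Group G] (hG : Nat.card G = p ^ n)
    (Λ : GrData G) (D : Finset ℕ) (hD : ∀ i ∈ D, 1 ≤ i) :
    ∃ H : Subgroup G, H.index = p ^ (∑ i ∈ D, Λ.L.rho p D i) ∧ Kills G H D := by
  have hfinG : Finite G := Nat.finite_of_card_ne_zero (by rw [hG]; exact pow_ne_zero _ hp.ne_zero)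
  obtain ⟨hfin, hcard⟩ := card_V hp G hG Λ
  have hfin1 := hfin 1
  -- the homomorphism from `G`
  have hmem1 : ∀ x : G, x ∈ gam G 1 := fun x => Subgroup.mem_top x
  let θ : G →* Multiplicative (Λ.V 1) :=
    (qHom Λ 1).comp ((MonoidHom.id G).codRestrict (gam G 1) hmem1)
  have hθ : Function.Surjective θ := fun v => by
    obtain ⟨x, hx⟩ := qHom_surj Λ 1 v
    exact ⟨x.1, hx⟩
  set M := D.sup id + 1 with hM
  have hDM : ∀ i ∈ D, i < M := fun i hi => Nat.lt_succ_of_le (le_sup (f := id) hi)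
  -- the index of `K D j`
  have hanti : ∀ j, Λ.L.K D (j + 1) ≤ Λ.L.K D j := fun j x hx i hi hij => hx i hi (by omega)
  have hcardV : Nat.card (Λ.V 1) ∣ p ^ n := by
    rw [hcard 1 le_rfl, ← hG]
    exact (Subgroup.relIndex_dvd_card _ _).trans (Subgroup.card_subgroup_dvd_card _)
  have hstep : ∀ j, (Λ.L.K D (j + 1)).relIndex (Λ.L.K D j) = p ^ Λ.L.rho p D j := by
    intro j
    have h1 : (Λ.L.K D (j + 1)).relIndex (Λ.L.K D j) ∣ p ^ n :=
      (AddSubgroup.relIndex_dvd_card _ _).trans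
        ((AddSubgroup.card_addSubgroup_dvd_card _).trans hcardV)
    obtain ⟨a, -, ha⟩ := (Nat.dvd_prime_pow hp).mp h1
    have hpf : Fact p.Prime := ⟨hp⟩
    rw [GLie.rho, ha, padicValNat.prime_pow]
  have hrho0 : ∀ j, j ∉ D → Λ.L.rho p D j = 0 := by
    intro j hj
    have h1 : Λ.L.K D (j + 1) = Λ.L.K D j := by
      refine le_antisymm (hanti j) fun x hx i hi hij => hx i hi ?_
      rcases Nat.lt_or_ge i j with h | h
      · exact h
      · have : i = j := by omega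
        exact absurd (this ▸ hi) hj
    rw [GLie.rho, h1, AddSubgroup.relIndex_self, padicValNat_one_right]
  have hidx : ∀ j, (Λ.L.K D j).index = p ^ (∑ i ∈ range j, Λ.L.rho p D i) := by
    intro j
    induction j with
    | zero =>
      have : Λ.L.K D 0 = ⊤ := by
        rw [eq_top_iff]; intro x _ i _ hi0; omega
      rw [this]; simp
    | succ j ih =>
      rw [sum_range_succ, pow_add, ← ih, ← hstep j, mul_comm]
      exact (AddSubgroup.relIndex_mul_index (hanti j)).symm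
  have hsum : ∑ i ∈ range M, Λ.L.rho p D i = ∑ i ∈ D, Λ.L.rho p D i := by
    symm
    apply sum_subset
    · intro i hi; exact mem_range.mpr (hDM i hi)
    · intro i _ hi; exact hrho0 i hi
  let T : Subgroup (Multiplicative (Λ.V 1)) := AddSubgroup.toSubgroup (Λ.L.K D M)
  refine ⟨T.comap θ, ?_, ?_⟩
  · rw [Subgroup.index_comap_of_surjective _ hθ, ← hsum, ← hidx M]
    rfl
  · intro i hi x hx v hv
    have hi1 := hD i hi
    have hx' : Λ.q 1 ⟨x, hmem1 x⟩ ∈ Λ.L.K D M := hx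
    have h1 := hx' i hi (hDM i hi) (1 + i) rfl (Λ.q i ⟨v, hv⟩)
    have hcm : cm x v ∈ gam G (1 + i) := by
      have h2 : (gam G (1 + i)) = ⁅gam G i, (⊤ : Subgroup G)⁆ := by
        obtain ⟨j, rfl⟩ : ∃ j, i = j + 1 := ⟨i - 1, by omega⟩
        have : 1 + (j + 1) - 1 = j + 1 := by omega
        rw [gam, this]; rfl
      rw [h2]
      have h3 : v * x * v⁻¹ * x⁻¹ ∈ ⁅gam G i, (⊤ : Subgroup G)⁆ :=
        Subgroup.commutator_mem_commutator hv (Subgroup.mem_top x)
      have h4 : cm x v = (v * x * v⁻¹ * x⁻¹)⁻¹ := by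
        rw [cm]; group
      rw [h4]
      exact inv_mem h3
    rw [Λ.br_q rfl le_rfl hi1 ⟨x, hmem1 x⟩ ⟨v, hv⟩ hcm, Λ.q_zero _ _ (by omega)] at h1
    have h5 : 1 + i + 1 = i + 2 := by omega
    rw [← h5]
    exact h1

end Pool.Agent.Helper27.BE
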