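import Pool.Agent.Helper27.BE.Defs

set_option autoImplicit false

namespace Pool.Agent.Helper27.BE

theorem exists_universal (p N : ℕ) [Fact p.Prime] : ∃ (U : Type) (_ : Group U) (M : ℕ),
    Nat.card U = p ^ M ∧ M ≤ N ^ 2 ∧ ∀ (P : Type) [Group P] (n : ℕ), Nat.card P = p ^ n →
      Faith p N P → ∃ φ : P →* U, Function.Injective φ := by
  have hp : p.Prime := Fact.out
  obtain ⟨S⟩ : Nonempty (Sylow p (GL (Fin N) (ZMod p))) := inferInstance
  refine ⟨S, inferInstance, (Nat.card (GL (Fin N) (ZMod p))).factorization p,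
    S.card_eq_multiplicity, ?_, ?_⟩
  · have h1 : Nat.card S ≤ Nat.card (GL (Fin N) (ZMod p)) :=
      Nat.card_le_card_of_injective _ Subtype.val_injective
    rw [S.card_eq_multiplicity] at h1
    have h2 : Nat.card (GL (Fin N) (ZMod p)) ≤ Nat.card (Matrix (Fin N) (Fin N) (ZMod p)) :=
      Nat.card_le_card_of_injective _ Units.val_injective
    have h3 : Nat.card (Matrix (Fin N) (Fin N) (ZMod p)) = p ^ N ^ 2 := by
      have : Nat.card (Fin N → Fin N → ZMod p) = p ^ N ^ 2 := by
        rw [Nat.card_fun, Nat.card_fun, Nat.card_zmod, Nat.card_fin, ← pow_mul, sq]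
      exact this
    rw [h3] at h2
    exact (Nat.pow_le_pow_iff_right hp.one_lt).mp (h1.trans h2)
  · rintro P _ n hP ⟨φ, hφ⟩
    have hfin : Finite P := Nat.finite_of_card_ne_zero (by rw [hP]; exact pow_ne_zero _ hp.ne_zero)
    have hPp : IsPGroup p P := IsPGroup.of_card hP
    have hr : IsPGroup p φ.range := hPp.of_surjective φ.rangeRestrict φ.rangeRestrict_surjective
    obtain ⟨Q, hQ⟩ := hr.exists_le_sylow
    obtain ⟨g, hg⟩ := MulAction.exists_smul_eq (GL (Fin N) (ZMod p)) Q S
    have hmem : ∀ x : P, (MulAut.conj g) (φ x) ∈ (S : Subgroup (GL (Fin N) (ZMod p))) := by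
      intro x
      have h1 : φ x ∈ (Q : Subgroup _) := hQ ⟨x, rfl⟩
      rw [← hg]
      exact Subgroup.smul_mem_pointwise_smul (φ x) (MulAut.conj g) (Q : Subgroup _) h1
    refine ⟨((MulAut.conj g).toMonoidHom.comp φ).codRestrict (S : Subgroup _) hmem, ?_⟩
    intro x y hxy
    have h1 := congrArg Subtype.val hxy
    exact hφ ((MulAut.conj g).injective h1)

end Pool.Agent.Helper27.BE
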