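import Pool.Agent.Helper27.BE.Defs
import Pool.Agent.Helper27.BE.Dcompl
import Pool.Agent.Helper27.BE.KillSub
import Pool.Agent.Helper27.BE.Univ
import Pool.Agent.Helper78.BE.Window
import Pool.Agent.Helper78.BE.SumLe
import Pool.Agent.Helper78.BE.RhoBounds
import Pool.Agent.Helper78.BE.Straighten
import Pool.Agent.Helper31.BE.Comm
import Pool.Agent.Helper31.BE.ClassStep
import Pool.Agent.Helper31.BE.Iterate
import Pool.Agent.Helper31.BE.Closure
import Pool.Agent.Helper27.BE.GrData
import Pool.Agent.Helper19.BE.Faith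
import Pool.Agent.Helper76.BE.WdFacts
import Pool.Agent.Helper76.BE.Aug
import Pool.Agent.Helper71.BE.Pigeon
import Pool.Agent.Helper71.BE.Count
import Pool.Agent.Helper71.BE.DimSub
import Pool.Agent.Helper71.BE.Numeric
import Pool.Agent.Helper33.BE.Cost
import Pool.Agent.Helper87.BE.Basis
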