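import Mathlib

/-!
# Universal `p`-groups for groups of bounded exponent: common definitions

* graded Lie rings `GLie` generated in degree one;
* the lower central series `gam` with the index shift `gam G 1 = G`, `gam G (i + 1) = [gam G i, G]`;
* runs of a set of levels, good starting levels;
* the augmentation submodule of the group algebra over `ZMod p`, ordered monomials.
-/

set_option autoImplicit false

namespace Pool.Agent.Helper27.BE

open Finset

/-! ### Graded Lie rings -/

/-- A graded ring with a bracket satisfying the Leibniz form of the Jacobi identity, generated in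
degree one. The degrees are carried by equations, so no casts are needed. -/
structure GLie (V : ℕ → Type) [∀ i, AddCommGroup (V i)] where
  br : ∀ {i j k : ℕ}, i + j = k → V i →+ V j →+ V k
  jac : ∀ {a b c ab bc ac abc : ℕ} (hab : a + b = ab) (hbc : b + c = bc) (hac : a + c = ac)
    (h1 : a + bc = abc) (h2 : ab + c = abc) (h3 : b + ac = abc) (x : V a) (y : V b) (z : V c),
    br h1 x (br hbc y z) = br h2 (br hab x y) z + br h3 y (br hac x z)
  gen : ∀ {i k : ℕ} (h : 1 + i = k), 1 ≤ i →
    AddSubgroup.closure {w : V k | ∃ (x : V 1) (y : V i), br h x y = w} = ⊤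

namespace GLie

variable {V : ℕ → Type} [∀ i, AddCommGroup (V i)] (L : GLie V)

/-- the element `x` of degree one kills the level `j` -/
def KillsLevel (x : V 1) (j : ℕ) : Prop := ∀ (k : ℕ) (h : 1 + j = k) (v : V j), L.br h x v = 0

/-- the elements of degree one which kill the levels of `D` below `i` -/
def K (D : Finset ℕ) (i : ℕ) : AddSubgroup (V 1) where
  carrier := {x | ∀ j ∈ D, j < i → L.KillsLevel x j}
  zero_mem' := by
    intro j _ _ k h v
    rw [map_zero]; rfl
  add_mem' := by
    intro x y hx hy j hj hi k h v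
    rw [map_add, AddMonoidHom.add_apply, hx j hj hi k h v, hy j hj hi k h v, add_zero]
  neg_mem' := by
    intro x hx j hj hi k h v
    rw [map_neg, AddMonoidHom.neg_apply, hx j hj hi k h v, neg_zero]

/-- the logarithm of the index of `K (i + 1)` in `K i` -/
noncomputable def rho (p : ℕ) (D : Finset ℕ) (i : ℕ) : ℕ :=
  padicValNat p ((L.K D (i + 1)).relIndex (L.K D i))

/-- The window property. For `i = m + a` the group `V i` is generated by elements `w` (iterated
brackets of `a` elements of degree one with an element `v` of degree `m`) for which there is an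
additive map `Φ` (the iterated bracket with the same `a` elements) from degree one to degree
`a + 1` such that `[Φ x, v] = ± [x, w]` as soon as `x` kills the levels `m, ..., i - 1`, and such
that `Φ x` kills the level `m'` as soon as `x` kills the levels `m', ..., m' + a`. -/
def Window : Prop :=
  ∀ (a m i n k : ℕ) (_ : 1 ≤ m) (_ : a + m = i) (_ : a + 1 = n) (hk : 1 + i = k)
    (h' : n + m = k),
    ∃ T : Set (V i), AddSubgroup.closure T = ⊤ ∧
      ∀ w ∈ T, ∃ (Φ : V 1 →+ V n) (v : V m),
        (∀ x : V 1, (∀ j, m ≤ j → j < i → L.KillsLevel x j) →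
          L.br h' (Φ x) v = ((-1 : ℤ) ^ a) • L.br hk x w) ∧
        (∀ (x : V 1) (m' : ℕ), 1 ≤ m' → (∀ j, m' ≤ j → j ≤ m' + a → L.KillsLevel x j) →
          ∀ (l : ℕ) (h : n + m' = l) (u : V m'), L.br h (Φ x) u = 0)

end GLie

/-- `a` consecutive levels just below `i` belong to `D`, and they are positive -/
def IsRun (D : Finset ℕ) (i a : ℕ) : Prop := a + 1 ≤ i ∧ ∀ j, i ≤ j + a → j < i → j ∈ D

/-- the quotient rounded up (`0` if `y = 0`) -/
def cd (x y : ℕ) : ℕ := (x + y - 1) / y

/-! ### Good starting levels -/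

/-- `b` is a good starting level: as long as no level above `b` is larger than `κ ^ 5`, the level
`b + m` has size at most `max κ (ε m)`. -/
def Good (ε : ℝ) (κ : ℕ) (d : ℕ → ℕ) (b : ℕ) : Prop :=
  ∀ m, (∀ j, b ≤ j → j ≤ b + m → d j ≤ κ ^ 5) → (d (b + m) : ℝ) ≤ max (κ : ℝ) (ε * m)

/-- `b` is a good starting level and the levels `b, ..., i + 1` are not large -/
def StartOK (ε : ℝ) (κ : ℕ) (d : ℕ → ℕ) (i b : ℕ) : Prop :=
  1 ≤ b ∧ b ≤ i ∧ Good ε κ d b ∧ ∀ j, b ≤ j → j ≤ i + 1 → d j ≤ κ ^ 5

open Classical in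
/-- the set of levels to be killed -/
noncomputable def Dset (ε : ℝ) (κ : ℕ) (d : ℕ → ℕ) (C : ℕ) : Finset ℕ :=
  (Icc 1 C).filter fun i => ∃ b, StartOK ε κ d i b

/-- the first good starting level for `i` -/
noncomputable def start (ε : ℝ) (κ : ℕ) (d : ℕ → ℕ) (i : ℕ) : ℕ :=
  sInf {b | StartOK ε κ d i b}

/-! ### The lower central series -/

section group
variable (G : Type) [Group G]

/-- the commutator `x y x⁻¹ y⁻¹` -/
def cm {G : Type} [Group G] (x y : G) : G := x * y * x⁻¹ * y⁻¹

/-- `gam G 1 = G`, `gam G (i + 1) = [gam G i, G]` for `i ≥ 1` (and `gam G 0 = G`) -/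
def gam (i : ℕ) : Subgroup G := Subgroup.lowerCentralSeries (⊤ : Subgroup G) (i - 1)

/-- the logarithm of the order of `gam G i / gam G (i + 1)` -/
noncomputable def wd (p i : ℕ) : ℕ := padicValNat p ((gam G (i + 1)).relIndex (gam G i))

/-- Commutator calculus for the lower central series: bilinearity and the Jacobi identity modulo
the next term, and generation. -/
structure GamCalc : Prop where
  comm : ∀ i j, 1 ≤ i → 1 ≤ j → ∀ x ∈ gam G i, ∀ y ∈ gam G j, cm x y ∈ gam G (i + j)
  mul_left : ∀ i j, 1 ≤ i → 1 ≤ j → ∀ x ∈ gam G i, ∀ x' ∈ gam G i, ∀ y ∈ gam G j,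
    (cm (x * x') y)⁻¹ * (cm x y * cm x' y) ∈ gam G (i + j + 1)
  mul_right : ∀ i j, 1 ≤ i → 1 ≤ j → ∀ x ∈ gam G i, ∀ y ∈ gam G j, ∀ y' ∈ gam G j,
    (cm x (y * y'))⁻¹ * (cm x y * cm x y') ∈ gam G (i + j + 1)
  jacobi : ∀ a b c, 1 ≤ a → 1 ≤ b → 1 ≤ c → ∀ x ∈ gam G a, ∀ y ∈ gam G b, ∀ z ∈ gam G c,
    (cm x (cm y z))⁻¹ * (cm (cm x y) z * cm y (cm x z)) ∈ gam G (a + b + c + 1)
  gen : ∀ i, 1 ≤ i → gam G (i + 1) = Subgroup.closure {z | ∃ x : G, ∃ y ∈ gam G i, z = cm x y}

/-- The graded Lie ring of a group, as data. -/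
structure GrData where
  V : ℕ → Type
  inst : ∀ i, AddCommGroup (V i)
  L : GLie V
  q : ∀ i, gam G i → V i
  q_mul : ∀ i (x y : gam G i), q i (x * y) = q i x + q i y
  q_surj : ∀ i, Function.Surjective (q i)
  q_zero : ∀ i (x : gam G i), 1 ≤ i → (q i x = 0 ↔ (x : G) ∈ gam G (i + 1))
  br_q : ∀ {i j k : ℕ} (h : i + j = k), 1 ≤ i → 1 ≤ j → ∀ (x : gam G i) (y : gam G j)
    (hm : cm (x : G) (y : G) ∈ gam G k),
    L.br h (q i x) (q j y) = q k ⟨_, hm⟩

attribute [instance] GrData.inst

/-- the elements of `H` kill the levels of `D` -/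
def Kills (H : Subgroup G) (D : Finset ℕ) : Prop :=
  ∀ i ∈ D, ∀ x ∈ H, ∀ v ∈ gam G i, cm x v ∈ gam G (i + 2)

end group

/-! ### Ordered monomials and the augmentation ideal -/

/-- ordered restricted monomials -/
def mon {A : Type} [Ring A] {r p : ℕ} (X : Fin r → A) (α : Fin r → Fin p) : A :=
  (List.ofFn fun s => X s ^ (α s : ℕ)).prod

/-- the weight of a monomial -/
def wt {r p : ℕ} (w : Fin r → ℕ) (α : Fin r → Fin p) : ℕ := ∑ s, (α s : ℕ) * w s

section aug
variable (p : ℕ) (B : Type) [Group B]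

/-- `g - 1` in the group algebra over `ZMod p` -/
noncomputable def dlt (g : B) : MonoidAlgebra (ZMod p) B := MonoidAlgebra.of (ZMod p) B g - 1

/-- the augmentation ideal, as a subspace -/
noncomputable def aug : Submodule (ZMod p) (MonoidAlgebra (ZMod p) B) :=
  Submodule.span (ZMod p) (Set.range (dlt p B))

/-- its powers, with `Fil 0 = ⊤` -/
noncomputable def Fil (m : ℕ) : Submodule (ZMod p) (MonoidAlgebra (ZMod p) B) :=
  if m = 0 then ⊤ else aug p B ^ m

/-- The group elements `x ^ (p ^ k)` with `x` in the `j`-th term of the lower central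
series, `j ≥ 1` and `j p ^ k = i`. -/
def Pw (i : ℕ) : Set B :=
  {g | ∃ (j k : ℕ) (x : B), 1 ≤ j ∧ x ∈ gam B j ∧ j * p ^ k = i ∧ g = x ^ p ^ k}

end aug

/-- `G` has a faithful representation of dimension `N` over `ZMod p` -/
def Faith (p N : ℕ) (G : Type) [Group G] : Prop :=
  ∃ φ : G →* GL (Fin N) (ZMod p), Function.Injective φ

/-- Some group of order `p ^ m` contains a copy of every group of order `p ^ n` whose exponent
divides `p ^ e`. -/
def UniversalExp (p e n m : ℕ) : Prop :=
  ∃ (U : Type) (_ : Group U), Nat.card U = p ^ m ∧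
    ∀ (P : Type) [Group P], Nat.card P = p ^ n → (∀ x : P, x ^ p ^ e = 1) →
      ∃ φ : P →* U, Function.Injective φ

end Pool.Agent.Helper27.BE
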