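import Pool.Agent.Helper27.BE.All

set_option autoImplicit false

namespace Pool.Agent.Helper27.BE

open Finset
open Pool.Agent.Helper31.BE (dlt_pow dlt_gam_mem comm_mem)
open Pool.Agent.Helper76.BE (Fil_zero Fil_anti Fil_mul Fil_succ Fil_zero_le exists_dimSub Fil_eq_bot)
open Pool.Agent.Helper71.BE (finrank_quot_le dimSub_index)
open Pool.Agent.Helper87.BE (exists_basis)

section
variable {p : ℕ} [hp : Fact p.Prime] {B : Type} [Group B]

/-- the dimension subgroups -/
noncomputable def dimSub (p : ℕ) [Fact p.Prime] (B : Type) [Group B] (i : ℕ) : Subgroup B :=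
  (exists_dimSub (p := p) (B := B) i).choose

theorem mem_dimSub (i : ℕ) (g : B) : g ∈ dimSub p B i ↔ dlt p B g ∈ Fil p B i :=
  (exists_dimSub (p := p) (B := B) i).choose_spec g

theorem Fil_le {i j : ℕ} (h : i ≤ j) : Fil p B j ≤ Fil p B i :=
  antitone_nat_of_succ_le Fil_anti h

theorem Fil_pow_mem {i : ℕ} {a : MonoidAlgebra (ZMod p) B} (ha : a ∈ Fil p B i) (n : ℕ) :
    a ^ n ∈ Fil p B (i * n) := by
  induction n with
  | zero => simp [Fil_zero]
  | succ n ih =>
    rw [pow_succ, Nat.mul_succ]
    exact Fil_mul _ _ (Submodule.mul_mem_mul ih ha)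

theorem Pw_mem {i : ℕ} {g : B} (hg : g ∈ Pw p B i) : dlt p B g ∈ Fil p B i := by
  obtain ⟨j, k, x, hj, hx, hi, rfl⟩ := hg
  rw [dlt_pow, ← hi]
  exact Fil_pow_mem (dlt_gam_mem hx) _

theorem dlt_mem_one (g : B) : dlt p B g ∈ Fil p B 1 := by
  have : dlt p B g ∈ aug p B := Submodule.subset_span ⟨g, rfl⟩
  simpa [Fil] using this

theorem gam_one : gam B 1 = ⊤ := rfl

theorem dimSub_anti {i j : ℕ} (h : i ≤ j) : dimSub p B j ≤ dimSub p B i := fun g hg => by
  rw [mem_dimSub] at hg ⊢
  exact Fil_le h hg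

/-- Jennings: the dimension subgroups of a group of class `c` and exponent `p ^ e`, and the size of
the quotients of the group algebra. -/
theorem jennings [Finite B] {m c e : ℕ} (hB : Nat.card B = p ^ m)
    (hexp : ∀ x : B, x ^ p ^ e = 1) (hc : gam B (c + 1) = ⊥) :
    (∀ g : B, dlt p B g ∈ Fil p B (c * p ^ (e - 1) + 1) → g = 1) ∧
      ∀ K, Module.finrank (ZMod p) (MonoidAlgebra (ZMod p) B ⧸ Fil p B K) ≤ (m + K).choose K := by
  have hfinA : Module.Finite (ZMod p) (MonoidAlgebra (ZMod p) B) :=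
    Module.Finite.of_basis (MonoidAlgebra.basis B (ZMod p))
  obtain ⟨N, hN1, hN⟩ := Fil_eq_bot (p := p) (B := B) (IsPGroup.of_card hB)
  set T : ℕ → Set (MonoidAlgebra (ZMod p) B) := fun i => dlt p B '' Pw p B i with hTdef
  have hT : ∀ i, T i ⊆ Fil p B i := by
    rintro i _ ⟨g, hg, rfl⟩
    exact Pw_mem hg
  obtain ⟨r, X, w, hX, hspan, hcount⟩ := exists_basis (Fil p B) Fil_anti T N hT hN
  have hXF : ∀ s, X s ∈ Fil p B (w s) := fun s => hT _ (hX s).2.2
  have hF : ∀ k, Fil p B k ≤ Submodule.span (ZMod p)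
      {a | ∃ α : Fin r → Fin p, wt w α = k ∧ a = mon X α} ⊔ Fil p B (k + 1) := by
    refine straighten (Fil p B) Fil_zero Fil_anti Fil_mul X w (fun s => (hX s).1) hXF ?_ ?_ ?_
      Fil_zero_le
    · intro s t
      obtain ⟨g, ⟨i, k, x, hi, hx, hik, rfl⟩, hg⟩ := (hX s).2.2
      obtain ⟨g', ⟨j, l, y, hj, hy, hjl, rfl⟩, hg'⟩ := (hX t).2.2
      obtain ⟨z, hz, hz2⟩ := comm_mem (p := p) (k := k) (l := l) hi hj hx hy
      rw [hik, hjl] at hz hz2
      rw [← hg, ← hg']
      have h1 : dlt p B z ∈ Submodule.span (ZMod p) {a | ∃ u, w u = w s + w t ∧ a = X u} ⊔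
          Fil p B (w s + w t + 1) := by
        refine hspan _ (by have := (hX s).1; omega) ⟨z, ⟨w s + w t, 0, z, ?_, hz, by simp, by simp⟩,
          rfl⟩
        have := (hX s).1; omega
      have h2 := Submodule.add_mem _ (Submodule.mem_sup_right (S := Submodule.span (ZMod p)
        {a | ∃ u, w u = w s + w t ∧ a = X u}) hz2) h1
      simpa using h2
    · intro s
      obtain ⟨g, ⟨i, k, x, hi, hx, hik, rfl⟩, hg⟩ := (hX s).2.2
      refine hspan _ ?_ ⟨x ^ p ^ (k + 1), ⟨i, k + 1, x, hi, hx, ?_, rfl⟩, ?_⟩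
      · exact Nat.mul_pos hp.out.pos (hX s).1
      · rw [← hik]; ring
      · rw [← hg, dlt_pow, dlt_pow, ← pow_mul, pow_succ]
    · intro k
      have h1 : aug p B ≤ Submodule.span (ZMod p) {a | ∃ u, w u = 1 ∧ a = X u} ⊔ Fil p B 2 := by
        rw [aug, Submodule.span_le]
        rintro _ ⟨g, rfl⟩
        exact hspan 1 le_rfl ⟨g, ⟨1, 0, g, le_rfl, by simp [gam_one], by simp, by simp⟩, rfl⟩
      refine (Fil_succ k).trans ((mul_le_mul' h1 le_rfl).trans ?_)
      rw [Submodule.sup_mul]
      refine sup_le_sup le_rfl ?_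
      have h2 := Fil_mul (p := p) (B := B) 2 k
      rwa [add_comm] at h2
  -- the dimension subgroups
  have hE1 : dimSub p B 1 = ⊤ := by
    rw [eq_top_iff]; intro g _; rw [mem_dimSub]; exact dlt_mem_one g
  have hdlt0 : ∀ g : B, dlt p B g = 0 → g = 1 := by
    intro g hg
    rw [dlt, sub_eq_zero] at hg
    have : MonoidAlgebra.of (ZMod p) B g = MonoidAlgebra.of (ZMod p) B 1 := by
      rw [hg]; rfl
    exact MonoidAlgebra.of_injective this
  have hEN : dimSub p B N = ⊥ := by
    rw [eq_bot_iff]; intro g hg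
    rw [mem_dimSub, hN, Submodule.mem_bot] at hg
    exact hdlt0 g hg
  -- indices
  have hidx : ∀ i, ∃ d, (dimSub p B (i + 1)).relIndex (dimSub p B i) = p ^ d := by
    intro i
    have h1 : (dimSub p B (i + 1)).relIndex (dimSub p B i) ∣ p ^ m := by
      have h2 := Subgroup.relIndex_dvd_card (dimSub p B (i + 1)) (dimSub p B i)
      exact h2.trans ((Subgroup.card_subgroup_dvd_card _).trans hB.dvd)
    obtain ⟨d, -, hd⟩ := (Nat.dvd_prime_pow hp.out).mp h1
    exact ⟨d, hd⟩
  choose d hd using hidx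
  have hprod : ∀ n, 1 ≤ n → (dimSub p B n).index = p ^ (∑ i ∈ Ico 1 n, d i) := by
    intro n hn
    induction n, hn using Nat.le_induction with
    | base => simp [hE1]
    | succ n hn ih =>
      rw [sum_Ico_succ_top hn, pow_add, ← ih, ← hd n, mul_comm]
      exact (Subgroup.relIndex_mul_index (dimSub_anti (Nat.le_succ n))).symm
  have hsumd : ∑ i ∈ Ico 1 N, d i = m := by
    have h1 := hprod N hN1
    rw [hEN, Subgroup.index_bot, hB] at h1
    exact (Nat.pow_right_injective hp.out.two_le h1).symm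
  -- comparison
  have hdim : ∀ i, 1 ≤ i → _ := fun i hi => dimSub_index (p := p) i (dimSub p B i)
    (dimSub p B (i + 1)) (mem_dimSub i) (mem_dimSub (i + 1))
    ((Fil_mul i i).trans (Fil_le (by omega))) (Pw p B i)
    (fun g hg => (mem_dimSub i g).mpr (Pw_mem hg)) (d i) (hd i)
  have hr : r = ∑ i ∈ Ico 1 N, (univ.filter fun s => w s = i).card := by
    rw [← card_biUnion]
    · conv_lhs => rw [← Fintype.card_fin r, ← card_univ]
      congr 1
      ext s
      simp only [mem_univ, mem_biUnion, mem_Ico, mem_filter, true_and, true_iff]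
      exact ⟨w s, ⟨(hX s).1, (hX s).2.1⟩, rfl⟩
    · intro i _ j _ hij
      change Disjoint _ _
      rw [disjoint_left]
      intro s hs hs'
      rw [mem_filter] at hs hs'
      exact hij (hs.2.symm.trans hs'.2)
  have hmr : m ≤ r := by
    have h1 := (finrank_quot_le (Fil p B) Fil_zero X w (fun s => (hX s).1) hF N).2.1
    have h2 : Module.finrank (ZMod p) (MonoidAlgebra (ZMod p) B ⧸ Fil p B N) = p ^ m := by
      rw [hN]
      have h3 := (Submodule.quotEquivOfEqBot (⊥ : Submodule (ZMod p)
        (MonoidAlgebra (ZMod p) B)) rfl).finrank_eq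
      rw [h3]
      have := Fintype.ofFinite B
      rw [Module.finrank_eq_card_basis (MonoidAlgebra.basis B (ZMod p)),
        ← Nat.card_eq_fintype_card, hB]
    rw [h2] at h1
    exact (Nat.pow_le_pow_iff_right hp.out.one_lt).mp h1
  have hle : ∀ i ∈ Ico 1 N, (univ.filter fun s => w s = i).card ≤ d i := by
    intro i hi
    rw [mem_Ico] at hi
    rw [hcount i hi.1 hi.2]
    exact (hdim i hi.1).1
  have hrm : r = m := by
    refine le_antisymm ?_ hmr
    rw [hr, ← hsumd]
    exact sum_le_sum hle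
  have heq : ∀ i ∈ Ico 1 N, (univ.filter fun s => w s = i).card = d i := by
    refine (sum_eq_sum_iff_of_le hle).mp ?_
    rw [← hr, hsumd, hrm]
  constructor
  · -- triviality
    have hstep : ∀ i, c * p ^ (e - 1) + 1 ≤ i → i < N → dimSub p B i ≤ dimSub p B (i + 1) := by
      intro i hi hiN g hg
      have hi1 : 1 ≤ i := by omega
      have h1 := (hdim i hi1).2 (by
        rw [← heq i (mem_Ico.mpr ⟨hi1, hiN⟩), hcount i hi1 hiN]) g hg
      have h2 : dlt p B '' Pw p B i ⊆ {0} := by
        rintro _ ⟨y, ⟨j, k, x, hj, hx, hjk, rfl⟩, rfl⟩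
        have h3 : x ^ p ^ k = 1 := by
          by_cases hjc : j ≤ c
          · have h4 : e ≤ k := by
              by_contra h5
              have h6 : p ^ k ≤ p ^ (e - 1) := Nat.pow_le_pow_right hp.out.pos (by omega)
              have h7 := Nat.mul_le_mul hjc h6
              omega
            rw [← Nat.sub_add_cancel h4, pow_add, mul_comm, pow_mul, hexp, one_pow]
          · have h4 : x ∈ gam B (c + 1) := Subgroup.lowerCentralSeries_antitone _ (by omega) hx
            rw [hc, Subgroup.mem_bot] at h4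
            rw [h4, one_pow]
        rw [h3, Set.mem_singleton_iff, dlt, map_one, sub_self]
      have h3 : Submodule.span (ZMod p) (dlt p B '' Pw p B i) = ⊥ := by
        rw [Submodule.span_eq_bot]
        intro a ha
        simpa using h2 ha
      rw [h3, bot_sup_eq] at h1
      rwa [mem_dimSub]
    intro g hg
    have h0 : ∀ n, dimSub p B (c * p ^ (e - 1) + 1) ≤ dimSub p B (c * p ^ (e - 1) + 1 + n) ∨
        N ≤ c * p ^ (e - 1) + 1 + n := by
      intro n
      induction n with
      | zero => left; exact le_rfl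
      | succ n ih =>
        rcases ih with ih | ih
        · by_cases h : c * p ^ (e - 1) + 1 + n < N
          · left; exact ih.trans (hstep _ (by omega) h)
          · right; omega
        · right; omega
    have hgN : g ∈ dimSub p B N := by
      have hg1 := (mem_dimSub _ g).mpr hg
      by_cases hcase : N ≤ c * p ^ (e - 1) + 1
      · exact dimSub_anti hcase hg1
      · -- climb to N
        have key : ∀ n, c * p ^ (e - 1) + 1 + n ≤ N →
            dimSub p B (c * p ^ (e - 1) + 1) ≤ dimSub p B (c * p ^ (e - 1) + 1 + n) := by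
          intro n
          induction n with
          | zero => intro _; exact le_rfl
          | succ n ih => intro hn; exact (ih (by omega)).trans (hstep _ (by omega) (by omega))
        have := key (N - (c * p ^ (e - 1) + 1)) (by omega)
        rw [Nat.add_sub_of_le (by omega)] at this
        exact this hg1
    rw [hEN, Subgroup.mem_bot] at hgN
    exact hgN
  · intro K
    have := (finrank_quot_le (Fil p B) Fil_zero X w (fun s => (hX s).1) hF K).1
    rwa [hrm] at this

end

end Pool.Agent.Helper27.BE
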