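import Pool.Agent.Helper27.BE.Half
import Pool.Agent.Helper27.BE.Jennings

set_option autoImplicit false

namespace Pool.Agent.Helper27.BE

open Finset Filter Topology
open Pool.Agent.Helper19.BE (faith_induced faith_pad faith_of_rep)
open Pool.Agent.Helper76.BE (Fil_zero Fil_anti Fil_mul)
open Pool.Agent.Helper71.BE (numeric)

/-- left multiplication on the quotient of the group algebra by `Fil p B K` -/
noncomputable def quotRep (p : ℕ) [Fact p.Prime] (B : Type) [Group B] (K : ℕ) :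
    B →* ((MonoidAlgebra (ZMod p) B ⧸ Fil p B K) →ₗ[ZMod p]
      (MonoidAlgebra (ZMod p) B ⧸ Fil p B K)) where
  toFun g := (Fil p B K).mapQ (Fil p B K)
    (LinearMap.mulLeft (ZMod p) (MonoidAlgebra.of (ZMod p) B g)) (by
      intro a ha
      rw [Submodule.mem_comap, LinearMap.mulLeft_apply]
      have h1 := Fil_mul (p := p) (B := B) 0 K
      rw [Nat.zero_add] at h1
      refine h1 (Submodule.mul_mem_mul ?_ ha)
      rw [Fil_zero]; trivial)
  map_one' := by
    ext a
    simp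
  map_mul' g h := by
    ext a
    simp [mul_assoc]

theorem faith_small {p : ℕ} [hp : Fact p.Prime] {B : Type} [Group B] [Finite B] {m c e : ℕ}
    (hB : Nat.card B = p ^ m) (hexp : ∀ x : B, x ^ p ^ e = 1) (hc : gam B (c + 1) = ⊥) :
    Faith p ((m + (c * p ^ (e - 1) + 1)).choose (c * p ^ (e - 1) + 1)) B := by
  obtain ⟨h1, h2⟩ := jennings hB hexp hc
  set K := c * p ^ (e - 1) + 1 with hK
  have hfinA : Module.Finite (ZMod p) (MonoidAlgebra (ZMod p) B) :=
    Module.Finite.of_basis (MonoidAlgebra.basis B (ZMod p))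
  refine faith_pad (faith_of_rep (quotRep p B K) ?_) (h2 K)
  intro g hg
  apply h1
  have h3 := LinearMap.congr_fun hg (Submodule.Quotient.mk 1)
  rw [LinearMap.id_apply] at h3
  have h4 : quotRep p B K g (Submodule.Quotient.mk 1) =
      Submodule.Quotient.mk (MonoidAlgebra.of (ZMod p) B g * 1) := rfl
  rw [h4, Submodule.Quotient.eq, mul_one] at h3
  exact h3

/-- The upper bound for large `n`. -/
theorem upper {p : ℕ} (hp : p.Prime) (e : ℕ) (c : ℝ) (hc : 1 < c) : ∃ n₀ : ℕ, ∀ n, n₀ ≤ n →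
    ∃ M : ℕ, UniversalExp p e n M ∧ (M : ℝ) ≤ c ^ n := by
  have hpf : Fact p.Prime := ⟨hp⟩
  obtain ⟨δ, hδ, n₂, hn₂⟩ := numeric p hp.two_le (p ^ (e - 1)) c hc
  obtain ⟨n₁, hn₁⟩ := theoremA hp δ hδ
  refine ⟨max n₁ n₂, fun n hn => ?_⟩
  have hn1 : n₁ ≤ n := (le_max_left _ _).trans hn
  have hn2 : n₂ ≤ n := (le_max_right _ _).trans hn
  set s := ⌊δ * n⌋₊ with hs
  have hδn : 0 ≤ δ * n := by positivity
  have hsδ : (s : ℝ) ≤ δ * n := Nat.floor_le hδn
  set K := s * p ^ (e - 1) + 1 with hK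
  set N := p ^ s * (n + K).choose K with hN
  obtain ⟨U, hU, M, hM, hMN, hemb⟩ := exists_universal p N
  refine ⟨M, ⟨U, hU, hM, fun P _ hP hexp => ?_⟩, ?_⟩
  · obtain ⟨H, t, k, hH, ht, hk, hHk⟩ := hn₁ n hn1 P hP
    have hfinP : Finite P := Nat.finite_of_card_ne_zero (by rw [hP]; exact pow_ne_zero _ hp.ne_zero)
    have hts : t ≤ s := Nat.le_floor ht
    have hks : k ≤ s := Nat.le_floor hk
    obtain ⟨m, hm, hmc⟩ : ∃ m, m ≤ n ∧ Nat.card H = p ^ m := by
      have h1 : Nat.card H ∣ p ^ n := hP ▸ Subgroup.card_subgroup_dvd_card H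
      obtain ⟨m, hm, h2⟩ := (Nat.dvd_prime_pow hp).mp h1
      exact ⟨m, hm, h2⟩
    have hexpH : ∀ x : H, x ^ p ^ e = 1 := fun x => by
      apply Subtype.ext
      simpa using hexp x
    have hgs : gam H (s + 1) = ⊥ := by
      rw [eq_bot_iff, ← hHk]
      exact Subgroup.lowerCentralSeries_antitone _ (by omega)
    have h1 := faith_small hmc hexpH hgs
    have h2 : Faith p ((n + K).choose K) H := faith_pad h1 (Nat.choose_le_choose _ (by omega))
    have h3 : 1 ≤ (n + K).choose K := Nat.choose_pos (by omega)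
    have h4 := faith_induced H hH (pow_ne_zero _ hp.ne_zero) h3 h2
    refine hemb P n hP (faith_pad h4 ?_)
    exact Nat.mul_le_mul_right _ (Nat.pow_le_pow_right hp.pos hts)
  · have h1 := hn₂ n hn2 s s hsδ hsδ
    calc (M : ℝ) ≤ ((N ^ 2 : ℕ) : ℝ) := by exact_mod_cast hMN
      _ = (N : ℝ) ^ 2 := by push_cast; ring
      _ ≤ c ^ n := h1

/-- The set of the possible orders is not empty. -/
theorem exists_universalExp {p : ℕ} (hp : p.Prime) (e n : ℕ) : ∃ m, UniversalExp p e n m := by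
  have hpf : Fact p.Prime := ⟨hp⟩
  obtain ⟨U, hU, M, hM, -, hemb⟩ := exists_universal p (p ^ n)
  refine ⟨M, U, hU, hM, fun P _ hP _ => hemb P n hP ?_⟩
  have hfinP : Finite P := Nat.finite_of_card_ne_zero (by rw [hP]; exact pow_ne_zero _ hp.ne_zero)
  have h1 : Faith p 1 (⊥ : Subgroup P) := by
    refine ⟨1, fun x y _ => Subtype.ext ?_⟩
    rw [Subgroup.mem_bot.mp x.2, Subgroup.mem_bot.mp y.2]
  have h2 := faith_induced (⊥ : Subgroup P) (by rw [Subgroup.index_bot, hP])
    (pow_ne_zero _ hp.ne_zero) le_rfl h1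
  rwa [mul_one] at h2

theorem main {p : ℕ} (hp : p.Prime) (e : ℕ) (f : ℕ → ℕ)
    (hf : ∀ n : ℕ, IsLeast {m : ℕ | UniversalExp p e n m} (f n)) (c : ℝ) (hc : 1 < c) :
    Tendsto (fun n : ℕ => (f n : ℝ) / c ^ n) atTop (𝓝 0) := by
  set c' := (1 + c) / 2 with hc'
  have h1 : 1 < c' := by rw [hc']; linarith
  have h2 : c' < c := by rw [hc']; linarith
  obtain ⟨n₀, hn₀⟩ := upper hp e c' h1
  have h3 : Tendsto (fun n : ℕ => (c' / c) ^ n) atTop (𝓝 0) := by
    apply tendsto_pow_atTop_nhds_zero_of_lt_one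
    · positivity
    · rw [div_lt_one (by linarith)]; exact h2
  refine squeeze_zero' (Eventually.of_forall fun n => by positivity) ?_ h3
  filter_upwards [eventually_ge_atTop n₀] with n hn
  obtain ⟨M, hM, hMc⟩ := hn₀ n hn
  rw [div_pow]
  have hcpos : (0 : ℝ) < c ^ n := by positivity
  gcongr
  exact le_trans (by exact_mod_cast (hf n).2 hM) hMc

end Pool.Agent.Helper27.BE
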