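import Pool.Agent.Helper27.BE.All

set_option autoImplicit false

namespace Pool.Agent.Helper27.BE

open Finset
open Pool.Agent.Helper31.BE (gamCalc class_step iterate)
open Pool.Agent.Helper27.BE.Gr (grData)
open Pool.Agent.Helper76.BE (wd_facts)
open Pool.Agent.Helper71.BE (exists_scale)

theorem half {p : ℕ} (hp : p.Prime) (ε : ℝ) (hε : 0 < ε) (hε2 : ε ≤ 1 / 2) : ∃ n₀ : ℕ,
    ∀ (n C : ℕ), n₀ ≤ n → ∀ (G : Type) [Group G], Nat.card G = p ^ n → gam G (C + 1) = ⊥ →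
      ∃ (H : Subgroup G) (s k : ℕ), H.index = p ^ s ∧ (s : ℝ) ≤ 20 * ε * n ∧
        (2 * k : ℝ) ≤ C + ε * n + 2 ∧ gam H (k + 1) = ⊥ := by
  obtain ⟨κ₀, hκ₀2, hκ₀⟩ : ∃ κ₀ : ℕ, 2 ≤ κ₀ ∧ 4 / ε ≤ κ₀ :=
    ⟨max 2 ⌈4 / ε⌉₊, le_max_left _ _, (Nat.le_ceil _).trans (by exact_mod_cast le_max_right _ _)⟩
  obtain ⟨κ₁, hκ₁⟩ := exists_scale (ε ^ 2 / 4) (by positivity) κ₀ hκ₀2
  obtain ⟨n₀, hn₀⟩ := cost_Dset hε hε2 κ₁
  refine ⟨n₀, fun n C hn G _ hG hC => ?_⟩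
  obtain ⟨hrel, C', hC', hmin, hpos, hzero, hsum⟩ := wd_facts hp G hG
  obtain ⟨κ, hκ0, hκ1, hmass⟩ := hκ₁ n C' (wd G p) hsum.le
  have hκr : 4 / ε ≤ (κ : ℝ) := hκ₀.trans (by exact_mod_cast hκ0)
  have hκ2 : 2 / ε ≤ (κ : ℝ) := le_trans (by gcongr; norm_num) hκr
  have hκ1' : (1 : ℝ) ≤ κ := by
    have : (2 : ℝ) ≤ κ := by exact_mod_cast hκ₀2.trans hκ0
    linarith
  have hκ5 : 4 / ε ≤ (κ : ℝ) ^ 5 := hκr.trans (le_self_pow₀ hκ1' (by norm_num))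
  set D := Dset ε κ (wd G p) C' with hD
  have hcompl := card_compl_Dset hε hε2 hκ2 hκ5 hsum.le hpos hzero hmass
  have hDsub : D ⊆ Icc 1 C' := by
    classical
    intro i hi
    rw [hD, Dset, mem_filter] at hi
    exact hi.1
  have hD1 : ∀ i ∈ D, 1 ≤ i ∧ i ≤ C' := fun i hi => mem_Icc.mp (hDsub hi)
  obtain ⟨Λ⟩ := grData G (gamCalc G)
  obtain ⟨hfin, hcard⟩ := card_V hp G hG Λ
  haveI := hfin
  have hd : ∀ i, 1 ≤ i → Nat.card (Λ.V i) = p ^ wd G p i := fun i hi => by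
    rw [hcard i hi, hrel i hi]
  obtain ⟨h1, h2, h3⟩ := Λ.L.rho_bounds hp (wd G p) hd D C' hD1
    (fun i => i - start ε κ (wd G p) i) (fun i hi => isRun_start i hi)
    (fun S a hS => Λ.L.sum_le hp Λ.L.window (wd G p) hd D S a hS)
  have hcost := hn₀ κ n C' (wd G p) hκ2 hκ1 hn hsum.le hzero (fun i => Λ.L.rho p D i)
    (fun i => cd (Λ.L.rho p D i) (wd G p i)) h1 h2 (h3.trans hsum.le)
  obtain ⟨H, hHidx, hHK⟩ := kill_subgroup hp G hG Λ D (fun i hi => (hD1 i hi).1)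
  set b := (Icc 1 C' \ D).card with hb
  refine ⟨H, ∑ i ∈ D, Λ.L.rho p D i, (C' + b + 1) / 2, hHidx, ?_, ?_, ?_⟩
  · push_cast
    exact hcost
  · have h4 : 2 * ((C' + b + 1) / 2) ≤ C' + b + 1 := Nat.mul_div_le _ _
    have h5 : C' ≤ C := hmin C hC
    have h6 : ((2 * ((C' + b + 1) / 2) : ℕ) : ℝ) ≤ ((C' + b + 1 : ℕ) : ℝ) := by exact_mod_cast h4
    push_cast at h6
    have h7 : (C' : ℝ) ≤ C := by exact_mod_cast h5
    push_cast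
    linarith
  · exact class_step G H D C' _ hDsub hHK hC' (by omega)

/-- Theorem A. -/
theorem theoremA {p : ℕ} (hp : p.Prime) (δ : ℝ) (hδ : 0 < δ) :
    ∃ n₁ : ℕ, ∀ n, n₁ ≤ n → ∀ (G : Type) [Group G], Nat.card G = p ^ n →
      ∃ (H : Subgroup G) (s k : ℕ), H.index = p ^ s ∧ (s : ℝ) ≤ δ * n ∧ (k : ℝ) ≤ δ * n ∧
        gam H (k + 1) = ⊥ := by
  refine iterate hp ?_ (fun ε hε hε2 => half hp ε hε hε2) δ hδ
  intro n G _ hG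
  obtain ⟨-, C, hC, hmin, hpos, hzero, hsum⟩ := wd_facts hp G hG
  have h1 : C ≤ n := by
    calc C = ∑ i ∈ Icc 1 C, 1 := by simp
      _ ≤ ∑ i ∈ Icc 1 C, wd G p i :=
        sum_le_sum fun i hi => hpos i (mem_Icc.mp hi).1 (mem_Icc.mp hi).2
      _ = n := hsum
  rw [eq_bot_iff, ← hC]
  exact Subgroup.lowerCentralSeries_antitone _ (by omega)

end Pool.Agent.Helper27.BE
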